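import Mathlib
import Pool.Agent.W254.HP.Gen

/-!
# All but few logarithms are linearly independent over polynomials in given numbers

Let `t_1, ..., t_n` be arbitrary complex numbers, for example logarithms of algebraic numbers, let
`D` be a natural number and let `X` be the set of the values at `t` of the polynomials with algebraic
coefficients which have degree at most `D` in each variable. Of any family (finite or infinite) of
logarithms of algebraic numbers which are linearly independent over `ℚ`, all but at most
`(4 D) ^ n - 2 ^ n` members are, together with `1`, linearly independent over `X`: there is no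
nontrivial relation `x₀ + ∑ x_s λ_s = 0` with coefficients in `X` which does not involve the
exceptional members.

So for `n = 1` and every number `t`, for instance `t = 2 π i` or `t = log 2`, there are at most
`4 D - 2` exceptional primes `p` such that the numbers `t ^ j` and `t ^ j log p`, `0 ≤ j ≤ D`, `p`
not exceptional, are linearly independent over the algebraic numbers (if `t` is transcendental).

The proof is in the starting library (`Pool.Agent.W254.HP`): Baker's theorem and the hyperplane case
of the linear subgroup theorem of Waldschmidt and Roy.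
-/

set_option autoImplicit false

namespace Pool.Agent.Results.MP_60829e_nt.FewExceptionalLogs

/-- The values at `t` of the polynomials with algebraic coefficients and of degree at most `D` in
each variable. -/
def Values {n : ℕ} (t : Fin n → ℂ) (D : ℕ) : Set ℂ :=
  {z | ∃ P : MvPolynomial (Fin n) (algebraicClosure ℚ ℂ),
    (∀ m ∈ P.support, ∀ i, m i ≤ D) ∧ MvPolynomial.aeval t P = z}

/-- **Main result.** -/
theorem result (n D : ℕ) (t : Fin n → ℂ) (ι : Type) (l : ι → ℂ)
    (hl : ∀ s, IsAlgebraic ℚ (Complex.exp (l s))) (hli : LinearIndependent ℚ l) :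
    ∃ E : Finset ι, E.card ≤ (4 * D) ^ n - 2 ^ n ∧
      ∀ (x₀ : ℂ) (x : ι →₀ ℂ), x₀ ∈ Values t D → (∀ s, x s ∈ Values t D) →
        (∀ s ∈ E, x s = 0) → x₀ + x.sum (fun s y => y * l s) = 0 → x₀ = 0 ∧ x = 0 := by
  classical
  obtain ⟨E, hEc, hE⟩ := Pool.Agent.W254.HP.gen_logs t D l hl hli
  refine ⟨E, hEc, fun x₀ x hx₀ hx hxE h0 => ?_⟩
  obtain ⟨P₀, hP₀, hP₀t⟩ := hx₀
  choose P hP hPt using hx
  let Q : ι →₀ MvPolynomial (Fin n) (algebraicClosure ℚ ℂ) :=
    Finsupp.onFinset x.support (fun s => if x s = 0 then 0 else P s) (by
      intro s hs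
      rw [Finsupp.mem_support_iff]
      intro h
      exact hs (if_pos h))
  have hQ : ∀ s, Q s = if x s = 0 then 0 else P s := fun s => rfl
  have hQt : ∀ s, MvPolynomial.aeval t (Q s) = x s := by
    intro s
    rw [hQ]
    split_ifs with h
    · rw [map_zero, h]
    · exact hPt s
  have h1 := hE P₀ Q hP₀ (fun s m hm i => ?_) (fun s hs => ?_) ?_
  · refine ⟨by rw [← hP₀t]; exact h1.1, ?_⟩
    ext s
    rw [← hQt s, h1.2 s]
    rfl
  · rw [hQ] at hm
    split_ifs at hm with h
    · simp at hm
    · exact hP s m hm i
  · rw [hQ, if_pos (hxE s hs)]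
  · rw [hP₀t, ← h0]
    congr 1
    rw [Finsupp.sum, Finsupp.sum]
    refine Finset.sum_subset_zero_on_sdiff ?_ ?_ ?_
    · intro s hs
      rw [Finsupp.mem_support_iff] at hs ⊢
      intro h
      exact hs (by rw [hQ, if_pos h])
    · intro s hs
      rw [Finset.mem_sdiff, Finsupp.mem_support_iff, Finsupp.notMem_support_iff] at hs
      have := hQt s
      rw [hs.2, map_zero] at this
      rw [← this, zero_mul]
    · intro s _
      rw [hQt]

end Pool.Agent.Results.MP_60829e_nt.FewExceptionalLogs
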